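import Mathlib
import Pool.Agent.K3h95.MS.C4

/-! Fixed residue classes: correlations of the first factor. -/

set_option autoImplicit false

namespace Pool.Agent.K3h95.FC
open Finset
open Pool.Agent.H807R2.Dav
open Pool.Agent.H373R2.T7
open Pool.Agent.K3h95.MS (Et norm_Et class_one sum_A)

/-- the square of the exponential sum -/
noncomputable def At (X : ℕ) (a : ℕ → ℂ) (t : ℕ) : ℝ := ‖∑ m ∈ Icc 1 X, a m * Et (2 * X + 1) t m‖ ^ 2

lemma At_nonneg (X : ℕ) (a : ℕ → ℂ) (t : ℕ) : 0 ≤ At X a t := by unfold At; positivity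

/-- `M` times the absolute value of the correlation with shift `h` -/
noncomputable def Kh (X : ℕ) (a : ℕ → ℂ) (h : ℕ) : ℝ :=
  ‖∑ t ∈ range (2 * X + 1), (At X a t : ℂ) * Et (2 * X + 1) t h‖

lemma Kh_nonneg (X : ℕ) (a : ℕ → ℂ) (h : ℕ) : 0 ≤ Kh X a h := norm_nonneg _

lemma Et_mul_conj {M t n n' : ℕ} (h : n' ≤ n) :
    Et M t n * (starRingEnd ℂ) (Et M t n') = Et M t (n - n') := by
  unfold Et
  rw [ee_conj', ← ee_add]
  congr 1
  rw [Int.cast_mul, Int.cast_mul, Int.cast_mul]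
  push_cast [Nat.cast_sub h]
  ring

lemma pair_norm (X : ℕ) (a : ℕ → ℂ) (n n' : ℕ) :
    ‖∑ t ∈ range (2 * X + 1), (At X a t : ℂ) *
      (Et (2 * X + 1) t n * (starRingEnd ℂ) (Et (2 * X + 1) t n'))‖ = Kh X a (n - n' + (n' - n)) := by
  rcases le_total n' n with h | h
  · have e : n - n' + (n' - n) = n - n' := by omega
    rw [e]
    unfold Kh
    congr 1
    apply sum_congr rfl
    intro t _
    rw [Et_mul_conj h]
  · have e : n - n' + (n' - n) = n' - n := by omega
    rw [e]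
    unfold Kh
    rw [← RCLike.norm_conj (∑ t ∈ range (2 * X + 1), (At X a t : ℂ) * Et (2 * X + 1) t (n' - n)), map_sum]
    congr 1
    apply sum_congr rfl
    intro t _
    rw [← Et_mul_conj h, map_mul, map_mul, Complex.conj_ofReal, Complex.conj_conj, mul_comm (Et _ t n)]

lemma expand_sq (s : Finset ℕ) (f : ℕ → ℂ) : ((‖∑ n ∈ s, f n‖ ^ 2 : ℝ) : ℂ) =
    ∑ n ∈ s, ∑ n' ∈ s, f n * (starRingEnd ℂ) (f n') := by
  rw [Complex.ofReal_pow, ← Complex.mul_conj', map_sum, sum_mul_sum]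

/-- one class, in terms of the correlations -/
lemma class_pairs (X : ℕ) (a β : ℕ → ℂ) :
    ((2 * X + 1 : ℕ) : ℝ) * ∑ N ∈ Icc 1 X, ‖∑ n ∈ Ico 1 N, β n * a (N - n)‖ ^ 2 ≤
      ∑ n ∈ Icc 1 X, ∑ n' ∈ Icc 1 X, ‖β n‖ * ‖β n'‖ * Kh X a (n - n' + (n' - n)) := by
  refine (class_one X a β).trans ?_
  have h1 : (((∑ t ∈ range (2 * X + 1), ‖∑ m ∈ Icc 1 X, a m * Et (2 * X + 1) t m‖ ^ 2 *
        ‖∑ n ∈ Icc 1 X, β n * Et (2 * X + 1) t n‖ ^ 2 : ℝ)) : ℂ) =
      ∑ n ∈ Icc 1 X, ∑ n' ∈ Icc 1 X, β n * (starRingEnd ℂ) (β n') *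
        ∑ t ∈ range (2 * X + 1), (At X a t : ℂ) *
          (Et (2 * X + 1) t n * (starRingEnd ℂ) (Et (2 * X + 1) t n')) := by
    rw [Complex.ofReal_sum]
    have h2 : ∀ t ∈ range (2 * X + 1), (((‖∑ m ∈ Icc 1 X, a m * Et (2 * X + 1) t m‖ ^ 2 *
        ‖∑ n ∈ Icc 1 X, β n * Et (2 * X + 1) t n‖ ^ 2 : ℝ)) : ℂ) =
        ∑ n ∈ Icc 1 X, ∑ n' ∈ Icc 1 X, β n * (starRingEnd ℂ) (β n') * ((At X a t : ℂ) *
          (Et (2 * X + 1) t n * (starRingEnd ℂ) (Et (2 * X + 1) t n'))) := by
      intro t _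
      rw [Complex.ofReal_mul, expand_sq (Icc 1 X) (fun n => β n * Et (2 * X + 1) t n), mul_sum]
      apply sum_congr rfl
      intro n _
      rw [mul_sum]
      apply sum_congr rfl
      intro n' _
      rw [map_mul]
      unfold At
      ring
    rw [sum_congr rfl h2, sum_comm]
    apply sum_congr rfl
    intro n _
    rw [sum_comm]
    apply sum_congr rfl
    intro n' _
    rw [mul_sum]
  have h3 : (∑ t ∈ range (2 * X + 1), ‖∑ m ∈ Icc 1 X, a m * Et (2 * X + 1) t m‖ ^ 2 *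
        ‖∑ n ∈ Icc 1 X, β n * Et (2 * X + 1) t n‖ ^ 2 : ℝ) =
      ‖∑ n ∈ Icc 1 X, ∑ n' ∈ Icc 1 X, β n * (starRingEnd ℂ) (β n') *
        ∑ t ∈ range (2 * X + 1), (At X a t : ℂ) *
          (Et (2 * X + 1) t n * (starRingEnd ℂ) (Et (2 * X + 1) t n'))‖ := by
    rw [← h1, Complex.norm_real, Real.norm_of_nonneg (sum_nonneg fun _ _ => by positivity)]
  rw [h3]
  refine (norm_sum_le _ _).trans (sum_le_sum fun n _ => (norm_sum_le _ _).trans (sum_le_sum fun n' _ => ?_))
  rw [norm_mul, norm_mul, RCLike.norm_conj, pair_norm]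

/-- the pairs in one class -/
noncomputable def Sq (X : ℕ) (a : ℕ → ℂ) (q r : ℕ) : ℝ :=
  ∑ n ∈ (Icc 1 X).filter (fun n => n % q = r), ∑ n' ∈ (Icc 1 X).filter (fun n => n % q = r),
    Kh X a (n - n' + (n' - n))

lemma Sq_nonneg (X : ℕ) (a : ℕ → ℂ) (q r : ℕ) : 0 ≤ Sq X a q r :=
  sum_nonneg fun _ _ => sum_nonneg fun _ _ => Kh_nonneg _ _ _

/-- all blocks of one scale -/
lemma blocks (X i q r : ℕ) (a b : ℕ → ℂ) (B0 : ℝ) (hb : ∀ n ∈ Icc 1 X, ‖b n‖ ≤ B0) :
    ((2 * X + 1 : ℕ) : ℝ) * ∑ c ∈ range (X + 1), ∑ N ∈ Icc 1 X,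
      ‖∑ n ∈ Ico 1 N, (if n / 2 ^ i = c ∧ n % q = r then b n else 0) * a (N - n)‖ ^ 2 ≤
      B0 ^ 2 * Sq X a q r := by
  rw [mul_sum]
  refine (sum_le_sum fun c _ => class_pairs X a (fun n => if n / 2 ^ i = c ∧ n % q = r then b n else 0)).trans ?_
  rw [sum_comm]
  unfold Sq
  rw [mul_sum, sum_filter]
  apply sum_le_sum
  intro n hn
  rw [sum_comm]
  rcases em (n % q = r) with h1 | h1
  · rw [if_pos h1, mul_sum, sum_filter]
    apply sum_le_sum
    intro n' hn'
    have hK := Kh_nonneg X a (n - n' + (n' - n))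
    rcases em (n' % q = r) with h2 | h2
    · rw [if_pos h2]
      have h3 : ∀ c ∈ range (X + 1), c ≠ n / 2 ^ i →
          ‖(if n / 2 ^ i = c ∧ n % q = r then b n else 0)‖ * ‖(if n' / 2 ^ i = c ∧ n' % q = r then b n' else 0)‖ *
            Kh X a (n - n' + (n' - n)) = 0 := by
        intro c _ hc
        rw [if_neg (fun h => hc h.1.symm)]
        simp
      have h4 : n / 2 ^ i ∈ range (X + 1) := by
        rw [mem_Icc] at hn
        rw [mem_range]
        have := Nat.div_le_self n (2 ^ i)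
        omega
      rw [sum_eq_single_of_mem _ h4 h3, if_pos ⟨rfl, h1⟩]
      apply mul_le_mul_of_nonneg_right _ hK
      have hb1 := hb n hn
      have hb2 := hb n' hn'
      have hB : 0 ≤ B0 := (norm_nonneg _).trans hb1
      have h5 : ‖(if n' / 2 ^ i = n / 2 ^ i ∧ n' % q = r then b n' else 0)‖ ≤ B0 := by
        split_ifs
        · exact hb2
        · rw [norm_zero]; exact hB
      rw [pow_two]
      exact mul_le_mul hb1 h5 (norm_nonneg _) hB
    · rw [if_neg h2]
      apply le_of_eq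
      apply sum_eq_zero
      intro c _
      rw [if_neg (fun h : n' / 2 ^ i = c ∧ n' % q = r => h2 h.2)]
      simp
  · rw [if_neg h1]
    apply le_of_eq
    apply sum_eq_zero
    intro n' _
    apply sum_eq_zero
    intro c _
    rw [if_neg (fun h : n / 2 ^ i = c ∧ n % q = r => h1 h.2)]
    simp

/-- the pairs in one class, in terms of the shifts -/
lemma Sq_le (X q r : ℕ) (hqX : q ≤ X) (a : ℕ → ℂ) :
    (q : ℝ) * Sq X a q r ≤ 4 * X * ∑ h ∈ (range (X + 1)).filter (fun h => q ∣ h), Kh X a h := by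
  set D := ∑ h ∈ (range (X + 1)).filter (fun h => q ∣ h), Kh X a h with hD
  have hD0 : 0 ≤ D := sum_nonneg fun _ _ => Kh_nonneg _ _ _
  have h1 : ∀ n ∈ (Icc 1 X).filter (fun n => n % q = r),
      ∑ n' ∈ (Icc 1 X).filter (fun n => n % q = r), Kh X a (n - n' + (n' - n)) ≤ 2 * D := by
    intro n hn
    rw [mem_filter, mem_Icc] at hn
    have h2 : (Icc 1 X).filter (fun n => n % q = r) ⊆
        ((Icc 1 X).filter (fun n' => n' % q = r ∧ n' ≤ n)) ∪ ((Icc 1 X).filter (fun n' => n' % q = r ∧ n ≤ n')) := by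
      intro n' hn'
      rw [mem_filter] at hn'
      rw [mem_union, mem_filter, mem_filter]
      rcases le_total n' n with h | h
      · exact Or.inl ⟨hn'.1, hn'.2, h⟩
      · exact Or.inr ⟨hn'.1, hn'.2, h⟩
    have h3 : ∑ n' ∈ (Icc 1 X).filter (fun n' => n' % q = r ∧ n' ≤ n), Kh X a (n - n' + (n' - n)) ≤ D := by
      have h4 : ∑ n' ∈ (Icc 1 X).filter (fun n' => n' % q = r ∧ n' ≤ n), Kh X a (n - n' + (n' - n)) =
          ∑ h ∈ ((Icc 1 X).filter (fun n' => n' % q = r ∧ n' ≤ n)).image (fun n' => n - n'), Kh X a h := by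
        rw [sum_image]
        · apply sum_congr rfl
          intro n' hn'
          rw [mem_filter] at hn'
          congr 1
          omega
        · intro x hx y hy hxy
          rw [coe_filter] at hx hy
          have := hx.2.2
          have := hy.2.2
          simp only at hxy
          omega
      rw [h4]
      apply sum_le_sum_of_subset_of_nonneg _ (fun _ _ _ => Kh_nonneg _ _ _)
      intro h hh
      rw [mem_image] at hh
      obtain ⟨n', hn', rfl⟩ := hh
      rw [mem_filter, mem_Icc] at hn'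
      rw [mem_filter, mem_range]
      refine ⟨by omega, ?_⟩
      exact (Nat.modEq_iff_dvd' hn'.2.2).1 (hn'.2.1.trans hn.2.symm)
    have h5 : ∑ n' ∈ (Icc 1 X).filter (fun n' => n' % q = r ∧ n ≤ n'), Kh X a (n - n' + (n' - n)) ≤ D := by
      have h4 : ∑ n' ∈ (Icc 1 X).filter (fun n' => n' % q = r ∧ n ≤ n'), Kh X a (n - n' + (n' - n)) =
          ∑ h ∈ ((Icc 1 X).filter (fun n' => n' % q = r ∧ n ≤ n')).image (fun n' => n' - n), Kh X a h := by
        rw [sum_image]
        · apply sum_congr rfl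
          intro n' hn'
          rw [mem_filter] at hn'
          congr 1
          omega
        · intro x hx y hy hxy
          rw [coe_filter] at hx hy
          have := hx.2.2
          have := hy.2.2
          simp only at hxy
          omega
      rw [h4]
      apply sum_le_sum_of_subset_of_nonneg _ (fun _ _ _ => Kh_nonneg _ _ _)
      intro h hh
      rw [mem_image] at hh
      obtain ⟨n', hn', rfl⟩ := hh
      rw [mem_filter, mem_Icc] at hn'
      rw [mem_filter, mem_range]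
      refine ⟨by omega, ?_⟩
      exact (Nat.modEq_iff_dvd' hn'.2.2).1 (hn.2.trans hn'.2.1.symm)
    refine (sum_le_sum_of_subset_of_nonneg h2 (fun _ _ _ => Kh_nonneg _ _ _)).trans ?_
    have h6 := sum_union_inter (s₁ := (Icc 1 X).filter (fun n' => n' % q = r ∧ n' ≤ n))
      (s₂ := (Icc 1 X).filter (fun n' => n' % q = r ∧ n ≤ n')) (f := fun n' => Kh X a (n - n' + (n' - n)))
    have h7 : 0 ≤ ∑ n' ∈ ((Icc 1 X).filter (fun n' => n' % q = r ∧ n' ≤ n)) ∩
        ((Icc 1 X).filter (fun n' => n' % q = r ∧ n ≤ n')), Kh X a (n - n' + (n' - n)) :=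
      sum_nonneg fun _ _ => Kh_nonneg _ _ _
    linarith
  have h2 : Sq X a q r ≤ (((Icc 1 X).filter (fun n => n % q = r)).card : ℝ) * (2 * D) := by
    unfold Sq
    refine (sum_le_sum h1).trans (le_of_eq ?_)
    rw [sum_const, nsmul_eq_mul]
  have h3 : q * ((Icc 1 X).filter (fun n => n % q = r)).card ≤ 2 * X := by
    have h4 : ((Icc 1 X).filter (fun n => n % q = r)).card ≤ X / q + 1 := by
      have h5 : ((Icc 1 X).filter (fun n => n % q = r)).card ≤ (range (X / q + 1)).card := by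
        apply card_le_card_of_injOn (fun n => n / q)
        · intro n hn
          rw [coe_filter] at hn
          have hn1 := hn.1
          rw [mem_Icc] at hn1
          rw [coe_range]
          exact Nat.lt_succ_of_le (Nat.div_le_div_right hn1.2)
        · intro x hx y hy hxy
          rw [coe_filter] at hx hy
          have e1 := Nat.div_add_mod x q
          have e2 := Nat.div_add_mod y q
          have e3 : x / q = y / q := hxy
          rw [e3, hx.2] at e1
          rw [hy.2] at e2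
          omega
      rwa [card_range] at h5
    calc q * ((Icc 1 X).filter (fun n => n % q = r)).card ≤ q * (X / q + 1) := Nat.mul_le_mul_left _ h4
      _ = q * (X / q) + q := by ring
      _ ≤ X + X := Nat.add_le_add (Nat.mul_div_le X q) hqX
      _ = 2 * X := by ring
  have h3' : (q : ℝ) * (((Icc 1 X).filter (fun n => n % q = r)).card : ℝ) ≤ 2 * X := by exact_mod_cast h3
  calc (q : ℝ) * Sq X a q r ≤ q * ((((Icc 1 X).filter (fun n => n % q = r)).card : ℝ) * (2 * D)) :=
        mul_le_mul_of_nonneg_left h2 (Nat.cast_nonneg _)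
    _ = (q * (((Icc 1 X).filter (fun n => n % q = r)).card : ℝ)) * (2 * D) := by ring
    _ ≤ (2 * X) * (2 * D) := mul_le_mul_of_nonneg_right h3' (by linarith)
    _ = _ := by ring

end Pool.Agent.K3h95.FC
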