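import Mathlib
import Pool.Agent.K3h95.FC.F1

/-! Fixed residue classes: the sum over the moduli, with maxima. -/

set_option autoImplicit false

namespace Pool.Agent.K3h95.FC
open Finset
open Pool.Agent.H807R2.Dav
open Pool.Agent.H373R2.T7
open Pool.Agent.K3h95.MS (Et norm_Et sum_A cl)
open Pool.Agent.K3h95.MX (Bl Ms max_le mx le_mx mx_nonneg exists_J)

lemma Et_period (M m : ℕ) (hM : 1 ≤ M) : Et M M m = 1 := by
  unfold Et
  have h : ((M : ℕ) : ℝ) * ((((1 : ℤ) * m : ℤ) : ℝ) / M) = ((m : ℤ) : ℝ) := by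
    have hM0 : (M : ℝ) ≠ 0 := by exact_mod_cast (by omega : M ≠ 0)
    push_cast
    field_simp
  rw [h, ee_int]

lemma Et_zero (M m : ℕ) : Et M 0 m = 1 := by
  unfold Et
  rw [Nat.cast_zero, zero_mul, ee_zero]

lemma Et_swap (M t n : ℕ) : Et M t n = Et M n t := by
  unfold Et
  congr 1
  push_cast
  ring

lemma At_period (X : ℕ) (a : ℕ → ℂ) : At X a (2 * X + 1) = At X a 0 := by
  unfold At
  congr 2
  apply sum_congr rfl
  intro m _
  rw [Et_period _ _ (by omega), Et_zero]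

/-- sums over `1, ..., M` and over `0, ..., M - 1` -/
lemma sum_shift {E : Type*} [AddCommGroup E] (M : ℕ) (f : ℕ → E) (hf : f M = f 0) :
    ∑ t ∈ Icc 1 M, f t = ∑ t ∈ range M, f t := by
  have h1 : ∑ t ∈ range (M + 1), f t = ∑ t ∈ range M, f t + f M := sum_range_succ f M
  have h2 : ∑ t ∈ range (M + 1), f t = ∑ t ∈ range M, f (t + 1) + f 0 := sum_range_succ' f M
  have h3 : ∑ t ∈ Icc 1 M, f t = ∑ t ∈ range M, f (t + 1) := by
    rw [range_eq_Ico, sum_Ico_add' f 0 M 1, zero_add]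
    rfl
  rw [h3]
  rw [h2, hf] at h1
  exact add_right_cancel h1

lemma sum_At (X : ℕ) (a : ℕ → ℂ) :
    ∑ t ∈ range (2 * X + 1), At X a t = ((2 * X + 1 : ℕ) : ℝ) * ∑ m ∈ Icc 1 X, ‖a m‖ ^ 2 := sum_A X a

/-- the mean square of the correlations -/
lemma sum_Kh_sq (X : ℕ) (a : ℕ → ℂ) (δ : ℝ)
    (h : ∀ α : ℝ, ‖∑ m ∈ Icc 1 X, a m * ee ((m : ℝ) * α)‖ ≤ δ) :
    ∑ h ∈ range (X + 1), Kh X a h ^ 2 ≤
      (((2 * X + 1 : ℕ) : ℝ)) ^ 2 * (δ ^ 2 * ∑ m ∈ Icc 1 X, ‖a m‖ ^ 2) := by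
  have hA : ∀ t : ℕ, At X a t ≤ δ ^ 2 := by
    intro t
    unfold At
    apply pow_le_pow_left₀ (norm_nonneg _)
    refine le_trans (le_of_eq ?_) (h ((t : ℝ) / (2 * X + 1 : ℕ)))
    congr 1
    apply sum_congr rfl
    intro m _
    unfold Et
    congr 2
    push_cast
    ring
  have h1 := parseval_Icc (2 * X + 1) (2 * X + 1) (by omega) le_rfl (fun t => (At X a t : ℂ)) 1 (Or.inl rfl)
  have h2 : ∀ k : ℕ, ∑ t ∈ Icc 1 (2 * X + 1), (At X a t : ℂ) *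
      ee ((k : ℝ) * ((((1 : ℤ) * t : ℤ) : ℝ) / (2 * X + 1 : ℕ))) =
      ∑ t ∈ range (2 * X + 1), (At X a t : ℂ) * Et (2 * X + 1) t k := by
    intro k
    have h3 : ∀ t : ℕ, (At X a t : ℂ) * ee ((k : ℝ) * ((((1 : ℤ) * t : ℤ) : ℝ) / (2 * X + 1 : ℕ))) =
        (At X a t : ℂ) * Et (2 * X + 1) t k := by
      intro t
      rw [Et_swap (2 * X + 1) t k]
      rfl
    rw [sum_congr rfl (fun t _ => h3 t)]
    apply sum_shift
    rw [At_period, Et_period _ _ (by omega), Et_zero]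
  have h4 : ∑ t ∈ Icc 1 (2 * X + 1), ‖(At X a t : ℂ)‖ ^ 2 = ∑ t ∈ range (2 * X + 1), At X a t ^ 2 := by
    rw [sum_shift (2 * X + 1) (fun t => ‖(At X a t : ℂ)‖ ^ 2) (by rw [At_period])]
    apply sum_congr rfl
    intro t _
    rw [Complex.norm_real, Real.norm_eq_abs, sq_abs]
  have h5 : ∑ k ∈ range (2 * X + 1), Kh X a k ^ 2 = ((2 * X + 1 : ℕ) : ℝ) * ∑ t ∈ range (2 * X + 1), At X a t ^ 2 := by
    rw [← h4, ← h1]
    apply sum_congr rfl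
    intro k _
    rw [h2 k]
    rfl
  have h6 : ∑ k ∈ range (X + 1), Kh X a k ^ 2 ≤ ∑ k ∈ range (2 * X + 1), Kh X a k ^ 2 := by
    apply sum_le_sum_of_subset_of_nonneg _ (fun _ _ _ => by positivity)
    intro k hk
    rw [mem_range] at hk ⊢
    omega
  have h7 : ∑ t ∈ range (2 * X + 1), At X a t ^ 2 ≤
      δ ^ 2 * (((2 * X + 1 : ℕ) : ℝ) * ∑ m ∈ Icc 1 X, ‖a m‖ ^ 2) := by
    rw [← sum_At, mul_sum]
    apply sum_le_sum
    intro t _
    rw [pow_two (At X a t)]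
    exact mul_le_mul_of_nonneg_right (hA t) (At_nonneg _ _ _)
  calc ∑ k ∈ range (X + 1), Kh X a k ^ 2 ≤ _ := h6
    _ = ((2 * X + 1 : ℕ) : ℝ) * ∑ t ∈ range (2 * X + 1), At X a t ^ 2 := h5
    _ ≤ ((2 * X + 1 : ℕ) : ℝ) * (δ ^ 2 * (((2 * X + 1 : ℕ) : ℝ) * ∑ m ∈ Icc 1 X, ‖a m‖ ^ 2)) :=
        mul_le_mul_of_nonneg_left h7 (Nat.cast_nonneg _)
    _ = _ := by ring

lemma Kh_zero (X : ℕ) (a : ℕ → ℂ) : Kh X a 0 = ((2 * X + 1 : ℕ) : ℝ) * ∑ m ∈ Icc 1 X, ‖a m‖ ^ 2 := by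
  unfold Kh
  rw [← sum_At]
  have h1 : ∑ t ∈ range (2 * X + 1), (At X a t : ℂ) * Et (2 * X + 1) t 0 =
      ((∑ t ∈ range (2 * X + 1), At X a t : ℝ) : ℂ) := by
    rw [Complex.ofReal_sum]
    apply sum_congr rfl
    intro t _
    rw [Et_swap, Et_zero, mul_one]
  rw [h1, Complex.norm_real, Real.norm_of_nonneg (sum_nonneg fun _ _ => At_nonneg _ _ _)]

/-- the second moment of the divisor function -/
lemma sum_div_sq (X : ℕ) :
    ∑ h ∈ Icc 1 X, (h.divisors.card : ℝ) ^ 2 ≤ X * (1 + Real.log X) ^ 4 := by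
  have h1 := Pool.Agent.H398R2.BV.sum_card_pow_div 2 X
  norm_num at h1
  have h2 : ∑ h ∈ Icc 1 X, (h.divisors.card : ℝ) ^ 2 ≤ X * ∑ h ∈ Icc 1 X, (h.divisors.card : ℝ) ^ 2 / h := by
    rw [mul_sum]
    apply sum_le_sum
    intro h hh
    rw [mem_Icc] at hh
    have h3 : (0 : ℝ) < h := by exact_mod_cast hh.1
    have h4 : (h : ℝ) ≤ X := by exact_mod_cast hh.2
    rw [mul_div_assoc', le_div_iff₀ h3, mul_comm (X : ℝ)]
    exact mul_le_mul_of_nonneg_left h4 (by positivity)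
  exact h2.trans (mul_le_mul_of_nonneg_left h1 (Nat.cast_nonneg _))

/-- the sum over the moduli -/
lemma sum_moduli (X Q : ℕ) (hX : 1 ≤ X) (hQ : Q ≤ X) (a : ℕ → ℂ) (c : ℕ → ℕ) (δ Sa : ℝ)
    (hδ : 0 ≤ δ) (hSa : ∑ m ∈ Icc 1 X, ‖a m‖ ^ 2 ≤ X * Sa) (hSa0 : 1 ≤ Sa)
    (h : ∀ α : ℝ, ‖∑ m ∈ Icc 1 X, a m * ee ((m : ℝ) * α)‖ ≤ δ) :
    ∑ q ∈ Icc 1 Q, (q : ℝ) * Sq X a q (c q) ≤
      ((2 * X + 1 : ℕ) : ℝ) * (4 * X ^ 2 * (Q * Sa + (1 + Real.log X) ^ 2 * Sa * δ)) := by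
  set M := ((2 * X + 1 : ℕ) : ℝ) with hM
  have hM0 : 0 < M := by positivity
  have hX0 : (0 : ℝ) < X := by exact_mod_cast hX
  have hlX : 0 ≤ Real.log X := Real.log_natCast_nonneg X
  have h1 : ∑ q ∈ Icc 1 Q, (q : ℝ) * Sq X a q (c q) ≤
      4 * X * ∑ q ∈ Icc 1 Q, ∑ h ∈ (range (X + 1)).filter (fun h => q ∣ h), Kh X a h := by
    rw [mul_sum]
    apply sum_le_sum
    intro q hq
    rw [mem_Icc] at hq
    exact Sq_le X q (c q) (hq.2.trans hQ) a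
  have h2 : ∑ q ∈ Icc 1 Q, ∑ h ∈ (range (X + 1)).filter (fun h => q ∣ h), Kh X a h ≤
      Q * Kh X a 0 + ∑ h ∈ Icc 1 X, (h.divisors.card : ℝ) * Kh X a h := by
    have e1 : ∀ q ∈ Icc 1 Q, ∑ h ∈ (range (X + 1)).filter (fun h => q ∣ h), Kh X a h =
        Kh X a 0 + ∑ h ∈ Icc 1 X, (if q ∣ h then Kh X a h else 0) := by
      intro q _
      rw [sum_filter, sum_range_succ', if_pos (dvd_zero q), add_comm, range_eq_Ico,
        sum_Ico_add' (fun h => if q ∣ h then Kh X a h else 0) 0 X 1, zero_add]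
      rfl
    rw [sum_congr rfl e1, sum_add_distrib, sum_const, Nat.card_Icc, nsmul_eq_mul, Nat.add_sub_cancel,
      sum_comm]
    gcongr with h hh
    rw [mem_Icc] at hh
    rw [← sum_filter, sum_const, nsmul_eq_mul]
    apply mul_le_mul_of_nonneg_right _ (Kh_nonneg _ _ _)
    have e2 : (Icc 1 Q).filter (fun q => q ∣ h) ⊆ h.divisors := by
      intro q hq
      rw [mem_filter] at hq
      rw [Nat.mem_divisors]
      exact ⟨hq.2, by omega⟩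
    exact_mod_cast card_le_card e2
  have h3 : ∑ h ∈ Icc 1 X, (h.divisors.card : ℝ) * Kh X a h ≤ M * (X * ((1 + Real.log X) ^ 2 * Sa * δ)) := by
    have e1 := sum_mul_sq_le_sq_mul_sq (Icc 1 X) (fun h => (h.divisors.card : ℝ)) (fun h => Kh X a h)
    have e2 : ∑ h ∈ Icc 1 X, Kh X a h ^ 2 ≤ M ^ 2 * (δ ^ 2 * (X * Sa)) := by
      refine le_trans ?_ ((sum_Kh_sq X a δ h).trans ?_)
      · apply sum_le_sum_of_subset_of_nonneg _ (fun _ _ _ => by positivity)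
        intro k hk
        rw [mem_Icc] at hk
        rw [mem_range]
        omega
      · apply mul_le_mul_of_nonneg_left _ (by positivity)
        exact mul_le_mul_of_nonneg_left hSa (by positivity)
    have e3 := sum_div_sq X
    have e4 : (∑ h ∈ Icc 1 X, (h.divisors.card : ℝ) * Kh X a h) ^ 2 ≤
        (M * (X * ((1 + Real.log X) ^ 2 * Sa * δ))) ^ 2 := by
      refine e1.trans ?_
      calc (∑ h ∈ Icc 1 X, (h.divisors.card : ℝ) ^ 2) * ∑ h ∈ Icc 1 X, Kh X a h ^ 2 ≤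
          (X * (1 + Real.log X) ^ 4) * (M ^ 2 * (δ ^ 2 * (X * Sa))) :=
            mul_le_mul e3 e2 (sum_nonneg fun _ _ => by positivity) (by positivity)
        _ = (M ^ 2 * X ^ 2 * (1 + Real.log X) ^ 4 * δ ^ 2) * Sa := by ring
        _ ≤ (M ^ 2 * X ^ 2 * (1 + Real.log X) ^ 4 * δ ^ 2) * Sa ^ 2 := by
            apply mul_le_mul_of_nonneg_left _ (by positivity)
            nlinarith
        _ = _ := by ring
    have e5 : 0 ≤ M * (X * ((1 + Real.log X) ^ 2 * Sa * δ)) := by positivity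
    exact (pow_le_pow_iff_left₀ (sum_nonneg fun _ _ => mul_nonneg (Nat.cast_nonneg _) (Kh_nonneg _ _ _)) e5
      two_ne_zero).1 e4
  have h4 : (Q : ℝ) * Kh X a 0 ≤ Q * (M * (X * Sa)) := by
    rw [Kh_zero]
    exact mul_le_mul_of_nonneg_left (mul_le_mul_of_nonneg_left hSa hM0.le) (Nat.cast_nonneg _)
  calc ∑ q ∈ Icc 1 Q, (q : ℝ) * Sq X a q (c q) ≤
      4 * X * (Q * (M * (X * Sa)) + M * (X * ((1 + Real.log X) ^ 2 * Sa * δ))) := by
        refine h1.trans (mul_le_mul_of_nonneg_left ?_ (by positivity))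
        linarith
    _ = _ := by ring

/-- **Fixed classes**, with maxima over the end of the summation. -/
theorem fixed_max (X Q J : ℕ) (hX : 1 ≤ X) (hQ : Q ≤ X) (hJ : X < 2 ^ J) (a b : ℕ → ℝ) (c : ℕ → ℕ)
    (δ Sa B0 : ℝ) (hδ : 0 ≤ δ) (hSa : ∑ m ∈ Icc 1 X, a m ^ 2 ≤ X * Sa) (hSa0 : 1 ≤ Sa)
    (hb : ∀ n ∈ Icc 1 X, |b n| ≤ B0)
    (h : ∀ α : ℝ, ‖∑ m ∈ Icc 1 X, (a m : ℂ) * ee ((m : ℝ) * α)‖ ≤ δ) :
    ∑ q ∈ Icc 1 Q, (q : ℝ) * ∑ N ∈ Icc 1 X, mx (cl a b q (c q) N) N ^ 2 ≤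
      J ^ 2 * (B0 ^ 2 * (4 * X ^ 2 * (Q * Sa + (1 + Real.log X) ^ 2 * Sa * δ))) := by
  have hM0 : (0 : ℝ) < ((2 * X + 1 : ℕ) : ℝ) := by positivity
  -- the bound for one point
  have h1 : ∀ q N : ℕ, N ∈ Icc 1 X → mx (cl a b q (c q) N) N ^ 2 ≤
      J * ∑ i ∈ range J, ∑ d ∈ range (X + 1), ‖Bl (fun n => ((cl a b q (c q) N n : ℝ) : ℂ)) N i d‖ ^ 2 := by
    intro q N hN
    rw [mem_Icc] at hN
    have h2 : mx (cl a b q (c q) N) N ≤ ∑ i ∈ range J, Ms (fun n => ((cl a b q (c q) N n : ℝ) : ℂ)) N X i := by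
      unfold mx
      apply sup'_le
      intro y hy
      rw [mem_range] at hy
      have h3 := max_le (fun n => ((cl a b q (c q) N n : ℝ) : ℂ)) N X y (by omega) hN.2 J hJ
      refine le_trans (le_of_eq ?_) h3
      rw [← Real.norm_eq_abs, ← Complex.norm_real]
      push_cast
      rfl
    refine (pow_le_pow_left₀ (mx_nonneg _ _) h2 2).trans ?_
    have h5 := sq_sum_le_card_mul_sum_sq (s := range J)
      (f := fun i => Ms (fun n => ((cl a b q (c q) N n : ℝ) : ℂ)) N X i)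
    rw [card_range] at h5
    refine h5.trans (le_of_eq ?_)
    congr 1
    apply sum_congr rfl
    intro i _
    unfold Ms
    rw [Real.sq_sqrt (sum_nonneg fun _ _ => by positivity)]
  -- all blocks of one scale
  have h2 : ∀ i q : ℕ, ((2 * X + 1 : ℕ) : ℝ) * ∑ d ∈ range (X + 1), ∑ N ∈ Icc 1 X,
      ‖Bl (fun n => ((cl a b q (c q) N n : ℝ) : ℂ)) N i d‖ ^ 2 ≤
      B0 ^ 2 * Sq X (fun m => (a m : ℂ)) q (c q) := by
    intro i q
    have h3 := blocks X i q (c q) (fun m => (a m : ℂ)) (fun n => (b n : ℂ)) B0 (fun n hn => by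
      rw [Complex.norm_real, Real.norm_eq_abs]
      exact hb n hn)
    refine le_trans (le_of_eq ?_) h3
    congr 1
    apply sum_congr rfl
    intro d _
    apply sum_congr rfl
    intro N _
    unfold Bl cl
    rw [sum_filter]
    congr 2
    apply sum_congr rfl
    intro n _
    by_cases h4 : n / 2 ^ i = d
    · by_cases h5 : n % q = c q
      · rw [if_pos h4, if_pos h5, if_pos ⟨h4, h5⟩]
        push_cast
        ring
      · rw [if_pos h4, if_neg h5, if_neg (fun h => h5 h.2)]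
        push_cast
        ring
    · rw [if_neg h4, if_neg (fun h : n / 2 ^ i = d ∧ n % q = c q => h4 h.1), zero_mul]
  have h3 : ∀ q : ℕ, ((2 * X + 1 : ℕ) : ℝ) * ∑ N ∈ Icc 1 X, mx (cl a b q (c q) N) N ^ 2 ≤
      J ^ 2 * (B0 ^ 2 * Sq X (fun m => (a m : ℂ)) q (c q)) := by
    intro q
    calc ((2 * X + 1 : ℕ) : ℝ) * ∑ N ∈ Icc 1 X, mx (cl a b q (c q) N) N ^ 2 ≤
        ((2 * X + 1 : ℕ) : ℝ) * ∑ N ∈ Icc 1 X, (J * ∑ i ∈ range J, ∑ d ∈ range (X + 1),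
          ‖Bl (fun n => ((cl a b q (c q) N n : ℝ) : ℂ)) N i d‖ ^ 2) :=
          mul_le_mul_of_nonneg_left (sum_le_sum fun N hN => h1 q N hN) hM0.le
      _ = J * ∑ i ∈ range J, (((2 * X + 1 : ℕ) : ℝ) * ∑ d ∈ range (X + 1), ∑ N ∈ Icc 1 X,
          ‖Bl (fun n => ((cl a b q (c q) N n : ℝ) : ℂ)) N i d‖ ^ 2) := by
          rw [← mul_sum, ← mul_sum, sum_comm, ← mul_assoc, ← mul_assoc, mul_comm (J : ℝ)]
          congr 1
          apply sum_congr rfl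
          intro i _
          rw [sum_comm]
      _ ≤ J * ∑ _i ∈ range J, B0 ^ 2 * Sq X (fun m => (a m : ℂ)) q (c q) :=
          mul_le_mul_of_nonneg_left (sum_le_sum fun i _ => h2 i q) (Nat.cast_nonneg _)
      _ = _ := by
          rw [sum_const, card_range, nsmul_eq_mul]
          ring
  have hSa' : ∑ m ∈ Icc 1 X, ‖(a m : ℂ)‖ ^ 2 ≤ X * Sa := by
    refine le_trans (le_of_eq ?_) hSa
    apply sum_congr rfl
    intro m _
    rw [Complex.norm_real, Real.norm_eq_abs, sq_abs]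
  have h4 := sum_moduli X Q hX hQ (fun m => (a m : ℂ)) c δ Sa hδ hSa' hSa0 h
  have key : ((2 * X + 1 : ℕ) : ℝ) * ∑ q ∈ Icc 1 Q, (q : ℝ) * ∑ N ∈ Icc 1 X, mx (cl a b q (c q) N) N ^ 2 ≤
      ((2 * X + 1 : ℕ) : ℝ) * (J ^ 2 * (B0 ^ 2 * (4 * X ^ 2 * (Q * Sa + (1 + Real.log X) ^ 2 * Sa * δ)))) := by
    calc ((2 * X + 1 : ℕ) : ℝ) * ∑ q ∈ Icc 1 Q, (q : ℝ) * ∑ N ∈ Icc 1 X, mx (cl a b q (c q) N) N ^ 2 =
        ∑ q ∈ Icc 1 Q, (q : ℝ) * (((2 * X + 1 : ℕ) : ℝ) * ∑ N ∈ Icc 1 X, mx (cl a b q (c q) N) N ^ 2) := by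
          rw [mul_sum]
          apply sum_congr rfl
          intro q _
          ring
      _ ≤ ∑ q ∈ Icc 1 Q, (q : ℝ) * (J ^ 2 * (B0 ^ 2 * Sq X (fun m => (a m : ℂ)) q (c q))) :=
          sum_le_sum fun q _ => mul_le_mul_of_nonneg_left (h3 q) (Nat.cast_nonneg _)
      _ = J ^ 2 * B0 ^ 2 * ∑ q ∈ Icc 1 Q, (q : ℝ) * Sq X (fun m => (a m : ℂ)) q (c q) := by
          rw [mul_sum]
          apply sum_congr rfl
          intro q _
          ring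
      _ ≤ J ^ 2 * B0 ^ 2 * (((2 * X + 1 : ℕ) : ℝ) * (4 * X ^ 2 * (Q * Sa + (1 + Real.log X) ^ 2 * Sa * δ))) :=
          mul_le_mul_of_nonneg_left h4 (by positivity)
      _ = _ := by ring
  exact le_of_mul_le_mul_left key hM0

end Pool.Agent.K3h95.FC
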