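import Mathlib
import Pool.Agent.K3h95.FC.F2

/-! Fixed residue classes: the choice of the parameters. -/

set_option autoImplicit false

namespace Pool.Agent.K3h95.FC
open Finset Filter
open Pool.Agent.H807R2.Dav
open Pool.Agent.R311.DEH (g1 g2 tlog low_N)
open Pool.Agent.K3h95.MX (mx le_mx mx_nonneg exists_J)
open Pool.Agent.K3h95.MS (cl P mP mP_eq mP_nonneg P_le sup_exp)

/-- the sum over the moduli, with one class for each modulus -/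
noncomputable def VF (β g : ℕ → ℝ) (c : ℕ → ℕ) (N Q : ℕ) : ℝ :=
  ∑ q ∈ Icc 1 Q, (q : ℝ) * mP β g q (c q) N ^ 2

lemma VF_nonneg (β g : ℕ → ℝ) (c : ℕ → ℕ) (N Q : ℕ) : 0 ≤ VF β g c N Q :=
  sum_nonneg fun _ _ => by positivity

lemma VF_mono (β g : ℕ → ℝ) (c : ℕ → ℕ) (N : ℕ) {Q Q' : ℕ} (h : Q ≤ Q') : VF β g c N Q ≤ VF β g c N Q' :=
  sum_le_sum_of_subset_of_nonneg (Icc_subset_Icc le_rfl h) fun _ _ _ => by positivity

/-- the mean of `VF` over `N` -/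
theorem mean_VF (X Q : ℕ) (hX : 4 ≤ X) (hQ : Q ≤ X) (β g : ℕ → ℝ) (c : ℕ → ℕ)
    (hβ : ∀ n, |β n| ≤ 1) (hg : g = g1 ∨ g = g2) (δ : ℝ) (hδ : 0 ≤ δ)
    (h : ∀ α : ℝ, ‖∑ m ∈ Icc 1 X, (g m : ℂ) * ee ((m : ℝ) * α)‖ ≤ δ) :
    ∑ N ∈ Icc 1 X, VF β g c N Q ≤ 16 * (1 + Real.log X) ^ 4 * X ^ 2 *
      (Q * (1 + Real.log X) ^ 2 + (1 + Real.log X) ^ 4 * δ) := by
  obtain ⟨J, hJ1, hJ2⟩ := exists_J X (by omega)
  have hXp : (0 : ℝ) < X := by exact_mod_cast (by omega : 0 < X)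
  have hlX : 0 ≤ Real.log X := Real.log_natCast_nonneg X
  set ℓ := 1 + Real.log X with hℓ
  have hℓ1 : 1 ≤ ℓ := by linarith
  have hlogn : ∀ n ∈ Icc 1 X, 0 ≤ Real.log n ∧ Real.log n ≤ ℓ := by
    intro n hn
    rw [mem_Icc] at hn
    have hn0 : (0 : ℝ) < n := by exact_mod_cast hn.1
    have := Real.log_le_log hn0 (show (n : ℝ) ≤ X by exact_mod_cast hn.2)
    exact ⟨Real.log_natCast_nonneg n, by linarith⟩
  have ha : ∑ m ∈ Icc 1 X, g m ^ 2 ≤ X * ℓ ^ 2 := by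
    calc ∑ m ∈ Icc 1 X, g m ^ 2 ≤ ∑ _m ∈ Icc 1 X, ℓ ^ 2 := by
          apply sum_le_sum
          intro m hm
          have h3 := hlogn m hm
          have h4 : |((ArithmeticFunction.moebius m : ℤ) : ℝ)| ≤ 1 := by
            exact_mod_cast ArithmeticFunction.abs_moebius_le_one
          rw [← sq_abs (g m)]
          apply pow_le_pow_left₀ (abs_nonneg _)
          rcases hg with rfl | rfl
          · unfold g1
            linarith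
          · unfold g2
            rw [abs_mul, abs_of_nonneg h3.1]
            nlinarith [abs_nonneg ((ArithmeticFunction.moebius m : ℤ) : ℝ)]
      _ = X * ℓ ^ 2 := by rw [sum_const, Nat.card_Icc, nsmul_eq_mul, Nat.add_sub_cancel]
  have hb : ∀ n ∈ Icc 1 X, |β n * ArithmeticFunction.vonMangoldt n| ≤ ℓ := by
    intro m hm
    have h3 := hlogn m hm
    have h5 : ArithmeticFunction.vonMangoldt m ≤ Real.log m := ArithmeticFunction.vonMangoldt_le_log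
    have h6 := ArithmeticFunction.vonMangoldt_nonneg (n := m)
    have h4 := hβ m
    rw [abs_mul, abs_of_nonneg h6]
    nlinarith [abs_nonneg (β m)]
  have h1 := fixed_max X Q J (by omega) hQ hJ1 g (fun n => β n * ArithmeticFunction.vonMangoldt n) c δ
    (ℓ ^ 2) ℓ hδ ha (one_le_pow₀ hℓ1) hb h
  have h2 : ∑ N ∈ Icc 1 X, VF β g c N Q = ∑ q ∈ Icc 1 Q, (q : ℝ) * ∑ N ∈ Icc 1 X,
      mx (cl g (fun n => β n * ArithmeticFunction.vonMangoldt n) q (c q) N) N ^ 2 := by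
    unfold VF
    rw [sum_comm]
    apply sum_congr rfl
    intro q _
    rw [mul_sum]
    apply sum_congr rfl
    intro N _
    rw [mP_eq]
  rw [h2]
  refine h1.trans ?_
  have hJ0 : (0 : ℝ) ≤ J := Nat.cast_nonneg _
  have c1 : (J : ℝ) ^ 2 ≤ (2 * ℓ) ^ 2 := pow_le_pow_left₀ hJ0 hJ2 2
  calc (J : ℝ) ^ 2 * (ℓ ^ 2 * (4 * X ^ 2 * (Q * ℓ ^ 2 + ℓ ^ 2 * ℓ ^ 2 * δ))) ≤
      (2 * ℓ) ^ 2 * (ℓ ^ 2 * (4 * X ^ 2 * (Q * ℓ ^ 2 + ℓ ^ 2 * ℓ ^ 2 * δ))) :=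
        mul_le_mul_of_nonneg_right c1 (by positivity)
    _ = _ := by ring

/-- the mean with the parameters -/
theorem mean_VF2 (E : ℕ) : ∃ X0 : ℕ, ∀ X : ℕ, X0 ≤ X → ∀ β g : ℕ → ℝ, ∀ c : ℕ → ℕ, (∀ n, |β n| ≤ 1) →
    (g = g1 ∨ g = g2) → ∑ N ∈ Icc 1 X, VF β g c N ⌊(X : ℝ) / (1 + Real.log X) ^ E⌋₊ ≤
      X ^ 3 * (320 / (1 + Real.log X) ^ E * (1 + Real.log X) ^ 7) := by
  obtain ⟨X1, h1⟩ := sup_exp (E + 10)
  obtain ⟨X6, hlog⟩ := eventually_atTop.1 (tlog.eventually_ge_atTop 4)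
  refine ⟨X1 + X6 + 4, fun X hX β g c hβ hg => ?_⟩
  have a1 := h1 X (by omega) g hg
  have a6 := hlog X (by omega)
  have hXp : (0 : ℝ) < X := by exact_mod_cast (by omega : 0 < X)
  set ℓ := 1 + Real.log X with hℓ
  have hℓ5 : 5 ≤ ℓ := by linarith
  have hℓ0 : 0 < ℓ := by linarith
  have hE1 : 1 ≤ ℓ ^ E := one_le_pow₀ (by linarith)
  set Q := ⌊(X : ℝ) / ℓ ^ E⌋₊ with hQ
  have hQle : (Q : ℝ) ≤ X / ℓ ^ E := Nat.floor_le (by positivity)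
  have hQX : Q ≤ X := by
    have : (Q : ℝ) ≤ X := hQle.trans (div_le_self hXp.le hE1)
    exact_mod_cast this
  have h3 := mean_VF X Q (by omega) hQX β g c hβ hg _ (by positivity) a1
  refine h3.trans ?_
  have h5 : ℓ ^ 4 * (16 * X / ℓ ^ (E + 10)) ≤ X / ℓ ^ E * ℓ ^ 2 := by
    have e1 : ℓ ^ 4 * (16 * X / ℓ ^ (E + 10)) = X / ℓ ^ E * (16 / ℓ ^ 6) := by
      rw [pow_add]
      field_simp
    rw [e1]
    apply mul_le_mul_of_nonneg_left _ (by positivity)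
    rw [div_le_iff₀ (by positivity)]
    have e2 : (1 : ℝ) ≤ ℓ ^ 2 := one_le_pow₀ (by linarith)
    have e3 : (16 : ℝ) ≤ ℓ ^ 6 := by
      calc (16 : ℝ) ≤ 5 ^ 6 := by norm_num
        _ ≤ ℓ ^ 6 := pow_le_pow_left₀ (by norm_num) hℓ5 6
    nlinarith
  calc 16 * ℓ ^ 4 * X ^ 2 * (Q * ℓ ^ 2 + ℓ ^ 4 * (16 * X / ℓ ^ (E + 10))) ≤
      16 * ℓ ^ 4 * X ^ 2 * (X / ℓ ^ E * ℓ ^ 2 + X / ℓ ^ E * ℓ ^ 2) := by
        apply mul_le_mul_of_nonneg_left _ (by positivity)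
        have := mul_le_mul_of_nonneg_right hQle (show 0 ≤ ℓ ^ 2 by positivity)
        linarith
    _ = X ^ 3 * (32 / ℓ ^ E * ℓ ^ 6) := by ring
    _ ≤ X ^ 3 * (320 / ℓ ^ E * ℓ ^ 7) := by
        apply mul_le_mul_of_nonneg_left _ (by positivity)
        have e1 : 32 / ℓ ^ E * ℓ ^ 6 ≤ 320 / ℓ ^ E * ℓ ^ 6 := by
          apply mul_le_mul_of_nonneg_right _ (by positivity)
          apply div_le_div_of_nonneg_right (by norm_num) (by positivity)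
        refine e1.trans (mul_le_mul_of_nonneg_left ?_ (by positivity))
        exact pow_le_pow_right₀ (by linarith) (by norm_num)

end Pool.Agent.K3h95.FC
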