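import Mathlib
import Pool.Agent.K3h95.FC.F3

/-! Fixed residue classes: almost all `N`. -/

set_option autoImplicit false

namespace Pool.Agent.K3h95.FC
open Finset Filter
open Pool.Agent.R311.DEH (g1 g2 tlog low_N)
open Pool.Agent.K3h95.MS (cl P mP mP_eq mP_nonneg P_le Dd mD mD_nonneg mD_le count2)

/-- the sum over the moduli of the squares of the discrepancies, with one reduced class for each modulus -/
noncomputable def WF (β g : ℕ → ℝ) (c : ℕ → ℕ) (N Q : ℕ) : ℝ :=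
  ∑ q ∈ (Icc 1 Q).filter (fun q => (c q).Coprime q), (q : ℝ) * mD β g q (c q) N ^ 2

lemma sum_q_phi (Q : ℕ) :
    ∑ q ∈ Icc 1 Q, (q : ℝ) * (1 / (Nat.totient q : ℝ)) ^ 2 ≤ (1 + Real.log Q) ^ 4 := by
  have hk := Pool.Agent.H398R2.BV.sum_card_pow_div 2 Q
  norm_num only at hk
  refine le_trans (sum_le_sum ?_) hk
  intro q hq
  rw [mem_Icc] at hq
  have hq0 : (0 : ℝ) < q := by exact_mod_cast hq.1
  have h1 : 1 / (Nat.totient q : ℝ) ≤ (q.divisors.card : ℝ) / q := by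
    refine (Pool.Agent.H398R2.BV.one_div_totient_le q hq.1).trans ?_
    apply div_le_div_of_nonneg_right _ hq0.le
    exact_mod_cast Pool.Agent.H398R2.BV.two_pow_omega_le q (by omega)
  calc (q : ℝ) * (1 / (Nat.totient q : ℝ)) ^ 2 ≤ q * ((q.divisors.card : ℝ) / q) ^ 2 :=
        mul_le_mul_of_nonneg_left (pow_le_pow_left₀ (by positivity) h1 2) hq0.le
    _ = _ := by
        field_simp

lemma WF_le (β g : ℕ → ℝ) (c : ℕ → ℕ) (hc : c 1 = 0) (N Q : ℕ) (hQ : 1 ≤ Q) :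
    WF β g c N Q ≤ 4 * (1 + Real.log Q) ^ 4 * VF β g c N Q := by
  have hℓ1 : 1 ≤ 1 + Real.log Q := by
    have := Real.log_natCast_nonneg Q
    linarith
  have hV0 := VF_nonneg β g c N Q
  have hm0 : 0 ≤ mP β g 1 0 N ^ 2 := by positivity
  have h1 : mP β g 1 0 N ^ 2 ≤ VF β g c N Q := by
    unfold VF
    have h2 : ((1 : ℕ) : ℝ) * mP β g 1 (c 1) N ^ 2 ≤ ∑ q ∈ Icc 1 Q, (q : ℝ) * mP β g q (c q) N ^ 2 :=
      single_le_sum (f := fun q : ℕ => (q : ℝ) * mP β g q (c q) N ^ 2)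
        (fun _ _ => by positivity) (mem_Icc.2 ⟨le_rfl, hQ⟩)
    rw [hc, Nat.cast_one, one_mul] at h2
    exact h2
  have h2 : ∀ q ∈ Icc 1 Q, (q : ℝ) * mD β g q (c q) N ^ 2 ≤
      2 * ((q : ℝ) * mP β g q (c q) N ^ 2) +
        2 * ((q : ℝ) * (1 / (Nat.totient q : ℝ)) ^ 2) * mP β g 1 0 N ^ 2 := by
    intro q _
    have h4 := mD_le β g q (c q) N
    have h5 := mD_nonneg β g q (c q) N
    have h6 : mD β g q (c q) N ^ 2 ≤ 2 * mP β g q (c q) N ^ 2 +
        2 * (1 / (Nat.totient q : ℝ)) ^ 2 * mP β g 1 0 N ^ 2 := by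
      calc mD β g q (c q) N ^ 2 ≤ (mP β g q (c q) N + 1 / (Nat.totient q : ℝ) * mP β g 1 0 N) ^ 2 :=
            pow_le_pow_left₀ h5 h4 2
        _ ≤ _ := by nlinarith [sq_nonneg (mP β g q (c q) N - 1 / (Nat.totient q : ℝ) * mP β g 1 0 N)]
    calc (q : ℝ) * mD β g q (c q) N ^ 2 ≤ q * (2 * mP β g q (c q) N ^ 2 +
        2 * (1 / (Nat.totient q : ℝ)) ^ 2 * mP β g 1 0 N ^ 2) := mul_le_mul_of_nonneg_left h6 (Nat.cast_nonneg _)
      _ = _ := by ring
  have h3 : WF β g c N Q ≤ ∑ q ∈ Icc 1 Q, (q : ℝ) * mD β g q (c q) N ^ 2 :=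
    sum_le_sum_of_subset_of_nonneg (filter_subset _ _) (fun _ _ _ => by positivity)
  refine h3.trans ((sum_le_sum h2).trans ?_)
  rw [sum_add_distrib, ← mul_sum, ← sum_mul, ← mul_sum]
  have h5 := sum_q_phi Q
  have h6 : 2 * (∑ q ∈ Icc 1 Q, (q : ℝ) * (1 / (Nat.totient q : ℝ)) ^ 2) * mP β g 1 0 N ^ 2 ≤
      2 * (1 + Real.log Q) ^ 4 * VF β g c N Q := by
    calc 2 * (∑ q ∈ Icc 1 Q, (q : ℝ) * (1 / (Nat.totient q : ℝ)) ^ 2) * mP β g 1 0 N ^ 2 ≤
        2 * (1 + Real.log Q) ^ 4 * mP β g 1 0 N ^ 2 := by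
          apply mul_le_mul_of_nonneg_right _ hm0
          linarith
      _ ≤ _ := mul_le_mul_of_nonneg_left h1 (by positivity)
  have h7 : VF β g c N Q ≤ (1 + Real.log Q) ^ 4 * VF β g c N Q :=
    le_mul_of_one_le_left hV0 (one_le_pow₀ hℓ1)
  have h8 : 2 * ∑ q ∈ Icc 1 Q, (q : ℝ) * mP β g q (c q) N ^ 2 = 2 * VF β g c N Q := rfl
  rw [h8]
  linarith

open Classical in
/-- **Almost all `N`.** -/
theorem few_badF (A k : ℕ) : ∃ X0 : ℕ, ∀ X : ℕ, X0 ≤ X → ∀ β g : ℕ → ℝ, ∀ c : ℕ → ℕ, c 1 = 0 → (∀ n, |β n| ≤ 1) →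
    (g = g1 ∨ g = g2) →
    (((Icc 1 X).filter (fun N : ℕ =>
      ¬ (VF β g c N ⌊(N : ℝ) / Real.log N ^ (A + 3 * k + 21)⌋₊ ≤ N ^ 2 / Real.log N ^ A ∧
        WF β g c N ⌊(N : ℝ) / Real.log N ^ (A + 3 * k + 21)⌋₊ ≤ N ^ 2 / Real.log N ^ A))).card : ℝ) ≤
      X / Real.log X ^ k := by
  obtain ⟨X1, h1⟩ := mean_VF2 (A + 3 * k + 20)
  obtain ⟨X2, h2⟩ := low_N (k + 2)
  obtain ⟨X3, h3⟩ := low_N (A + 3 * k + 20)
  obtain ⟨X6, hlog⟩ := eventually_atTop.1 (tlog.eventually_ge_atTop (max 4 (2 ^ (2 * (A + 3 * k + 21)))))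
  refine ⟨X1 + X2 + X3 + X6 + 4, fun X hX β g c hc hβ hg => ?_⟩
  have a1 := h1 X (by omega) β g c hβ hg
  have a2 := h2 X (by omega)
  have a3 := h3 X (by omega)
  have a6 := hlog X (by omega)
  have a6a : 4 ≤ Real.log X := (le_max_left _ _).trans a6
  have a6b : (2 : ℝ) ^ (2 * (A + 3 * k + 21)) ≤ Real.log X := (le_max_right _ _).trans a6
  have hXp : (0 : ℝ) < X := by exact_mod_cast (by omega : 0 < X)
  set L := Real.log X with hL
  set ℓ := 1 + L with hℓ
  have hℓ5 : 5 ≤ ℓ := by linarith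
  have hℓ0 : 0 < ℓ := by linarith
  have hE1 : 1 ≤ ℓ ^ (A + 3 * k + 20) := one_le_pow₀ (by linarith)
  set Q := ⌊(X : ℝ) / ℓ ^ (A + 3 * k + 20)⌋₊ with hQ
  have hQX : Q ≤ X := by
    have h5 : (Q : ℝ) ≤ X / ℓ ^ (A + 3 * k + 20) := Nat.floor_le (by positivity)
    have : (Q : ℝ) ≤ X := h5.trans (div_le_self hXp.le hE1)
    exact_mod_cast this
  have hQ1 : 1 ≤ Q := by
    apply Nat.le_floor
    push_cast
    refine le_trans ?_ a3
    have := Real.add_one_le_exp (L / 2)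
    linarith
  have hlQ : 1 + Real.log Q ≤ ℓ := by
    have := Real.log_le_log (show (0 : ℝ) < Q by exact_mod_cast hQ1) (show (Q : ℝ) ≤ X by exact_mod_cast hQX)
    linarith
  have hlQ0 : 0 ≤ Real.log Q := Real.log_natCast_nonneg Q
  set F : ℕ → ℝ := fun N => 4 * ℓ ^ 4 * VF β g c N Q with hF
  have hFnn : ∀ N, 0 ≤ F N := fun N => mul_nonneg (by positivity) (VF_nonneg β g c N Q)
  have hsum : ∑ N ∈ Icc 1 X, F N ≤ X ^ 3 * (1 / 2 / ℓ ^ (A + 3 * k + 4)) := by
    rw [hF, ← mul_sum]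
    calc 4 * ℓ ^ 4 * ∑ N ∈ Icc 1 X, VF β g c N Q ≤ 4 * ℓ ^ 4 * (X ^ 3 * (320 / ℓ ^ (A + 3 * k + 20) * ℓ ^ 7)) :=
          mul_le_mul_of_nonneg_left a1 (by positivity)
      _ = X ^ 3 * (1280 / ℓ ^ (A + 3 * k + 4) * (1 / ℓ ^ 5)) := by
          have e1 : ℓ ^ (A + 3 * k + 20) = ℓ ^ (A + 3 * k + 4) * ℓ ^ 16 := by rw [← pow_add]
          rw [e1]
          field_simp
          ring
      _ ≤ X ^ 3 * (1280 / ℓ ^ (A + 3 * k + 4) * (1 / 2560)) := by
          apply mul_le_mul_of_nonneg_left _ (by positivity)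
          apply mul_le_mul_of_nonneg_left _ (by positivity)
          apply one_div_le_one_div_of_le (by norm_num)
          calc (2560 : ℝ) ≤ 5 ^ 5 := by norm_num
            _ ≤ ℓ ^ 5 := pow_le_pow_left₀ (by norm_num) hℓ5 5
      _ = _ := by ring
  refine le_trans ?_ (count2 X L ℓ A k F hFnn (by omega) a6a hℓ hsum)
  have hsub : (Icc 1 X).filter (fun N : ℕ =>
      ¬ (VF β g c N ⌊(N : ℝ) / Real.log N ^ (A + 3 * k + 21)⌋₊ ≤ N ^ 2 / Real.log N ^ A ∧
        WF β g c N ⌊(N : ℝ) / Real.log N ^ (A + 3 * k + 21)⌋₊ ≤ N ^ 2 / Real.log N ^ A)) ⊆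
      (Icc 1 X).filter (fun N : ℕ => (N : ℝ) < X / ℓ ^ (k + 2) ∨ X ^ 2 / ℓ ^ (A + 2 * k + 4) ≤ F N) := by
    intro N hN
    rw [mem_filter] at hN ⊢
    refine ⟨hN.1, ?_⟩
    rcases lt_or_ge (N : ℝ) (X / ℓ ^ (k + 2)) with h7 | h7
    · exact Or.inl h7
    · right
      by_contra hcon
      push Not at hcon
      apply hN.2
      have hNmem := mem_Icc.1 hN.1
      have hN0 : (0 : ℝ) < N := by exact_mod_cast hNmem.1
      have hNs : Real.exp (L / 2) ≤ N := a2.trans h7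
      have hlogN : L / 2 ≤ Real.log N := by
        rw [Real.le_log_iff_exp_le hN0]; exact hNs
      have hlogN0 : 0 < Real.log N := by linarith
      have hNX : (N : ℝ) ≤ X := by exact_mod_cast hNmem.2
      have hlogN2 : Real.log N ≤ ℓ := by
        have := Real.log_le_log hN0 hNX
        linarith
      -- the level
      have hlev : ⌊(N : ℝ) / Real.log N ^ (A + 3 * k + 21)⌋₊ ≤ Q := by
        apply Nat.floor_le_floor
        have e1 : ℓ ^ (A + 3 * k + 20) ≤ Real.log N ^ (A + 3 * k + 21) := by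
          have e2 : (L / 2) ^ (A + 3 * k + 21) ≤ Real.log N ^ (A + 3 * k + 21) :=
            pow_le_pow_left₀ (by linarith) hlogN _
          have e3 : ℓ ^ (A + 3 * k + 20) ≤ (2 * L) ^ (A + 3 * k + 20) :=
            pow_le_pow_left₀ hℓ0.le (by linarith) _
          have e4 : (2 * L) ^ (A + 3 * k + 20) ≤ (L / 2) ^ (A + 3 * k + 21) := by
            have e5 : (L / 2) ^ (A + 3 * k + 21) = L ^ (A + 3 * k + 20) * (L / 2 ^ (A + 3 * k + 21)) := by
              rw [div_pow, pow_succ]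
              ring
            rw [e5, mul_pow, mul_comm]
            apply mul_le_mul_of_nonneg_left _ (by positivity)
            rw [le_div_iff₀ (by positivity)]
            calc (2 : ℝ) ^ (A + 3 * k + 20) * 2 ^ (A + 3 * k + 21) ≤
                2 ^ (A + 3 * k + 21) * 2 ^ (A + 3 * k + 21) := by
                  apply mul_le_mul_of_nonneg_right _ (by positivity)
                  exact pow_le_pow_right₀ (by norm_num) (by omega)
              _ = 2 ^ (2 * (A + 3 * k + 21)) := by rw [← pow_add]; congr 1; ring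
              _ ≤ L := a6b
          exact (e3.trans e4).trans e2
        exact div_le_div₀ hXp.le hNX (by positivity) e1
      have hthr : X ^ 2 / ℓ ^ (A + 2 * k + 4) ≤ (N : ℝ) ^ 2 / Real.log N ^ A := by
        calc X ^ 2 / ℓ ^ (A + 2 * k + 4) = (X / ℓ ^ (k + 2)) ^ 2 / ℓ ^ A := by
              rw [div_pow, div_div, ← pow_mul, ← pow_add]
              congr 2
              ring
          _ ≤ (N : ℝ) ^ 2 / ℓ ^ A := by
              apply div_le_div_of_nonneg_right _ (by positivity)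
              exact pow_le_pow_left₀ (by positivity) h7 2
          _ ≤ (N : ℝ) ^ 2 / Real.log N ^ A := by
              apply div_le_div_of_nonneg_left (by positivity) (by positivity)
              exact pow_le_pow_left₀ hlogN0.le hlogN2 _
      have hVQ := VF_nonneg β g c N Q
      have hℓ4 : 1 ≤ ℓ ^ 4 := one_le_pow₀ (by linarith)
      have hVF : VF β g c N Q ≤ F N := by
        rw [hF]
        simp only
        nlinarith
      have hWF : ∀ Q' : ℕ, Q' ≤ Q → WF β g c N Q' ≤ F N := by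
        intro Q' hQ'
        rcases Nat.eq_zero_or_pos Q' with h0 | h0
        · subst h0
          have : WF β g c N 0 = 0 := by
            unfold WF
            simp
          rw [this]
          exact hFnn N
        · refine (WF_le β g c hc N Q' h0).trans ?_
          have hV' := VF_mono β g c N hQ'
          have hlQ' : 1 + Real.log Q' ≤ ℓ := by
            have := Real.log_le_log (show (0 : ℝ) < Q' by exact_mod_cast h0)
              (show (Q' : ℝ) ≤ Q by exact_mod_cast hQ')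
            linarith
          have hlQ0' : 0 ≤ Real.log Q' := Real.log_natCast_nonneg Q'
          have hV0' := VF_nonneg β g c N Q'
          rw [hF]
          simp only
          have e1 : (1 + Real.log Q') ^ 4 ≤ ℓ ^ 4 := pow_le_pow_left₀ (by linarith) hlQ' 4
          calc 4 * (1 + Real.log Q') ^ 4 * VF β g c N Q' ≤ 4 * ℓ ^ 4 * VF β g c N Q' := by
                apply mul_le_mul_of_nonneg_right _ hV0'
                linarith
            _ ≤ 4 * ℓ ^ 4 * VF β g c N Q := mul_le_mul_of_nonneg_left hV' (by positivity)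
      exact ⟨((VF_mono β g c N hlev).trans hVF).trans (hcon.le.trans hthr),
        (hWF _ hlev).trans (hcon.le.trans hthr)⟩
  exact_mod_cast card_le_card hsub

end Pool.Agent.K3h95.FC
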